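import Pool.Agent.N513.CE.Stm

/-!
# Project CE (helper513), MP_67b2ac_al: restriction to a cyclic submodule (helper129)
-/

set_option autoImplicit false

namespace Pool.Agent.N129.CE

open Pool.Agent.N513.CE

/-- the restriction of an action to a stable additive subgroup -/
def res {D L : Type} [Group D] [AddCommGroup L] (ρ : D →* AddMonoid.End L) (M : AddSubgroup L)
    (h : ∀ d, ∀ l ∈ M, ρ d l ∈ M) : D →* AddMonoid.End M where
  toFun d := ((ρ d : L →+ L).comp M.subtype).codRestrict M fun l => h d l l.2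
  map_one' := by
    apply AddMonoidHom.ext
    intro l
    apply Subtype.ext
    show (ρ 1) (l : L) = l
    rw [map_one]
    rfl
  map_mul' d e := by
    apply AddMonoidHom.ext
    intro l
    apply Subtype.ext
    show (ρ (d * e)) (l : L) = ρ d (ρ e l)
    rw [map_mul]
    rfl

theorem res_val {D L : Type} [Group D] [AddCommGroup L] (ρ : D →* AddMonoid.End L)
    (M : AddSubgroup L) (h : ∀ d, ∀ l ∈ M, ρ d l ∈ M) (d : D) (l : M) :
    ((res ρ M h d l : M) : L) = ρ d l := rfl

theorem t_CYC : S_CYC := by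
  intro hMOD G _ K S p hG hfg hp hp2 hS hK
  obtain ⟨D, L, _, _, ρ, w, c, i, hRF, hFG, hc, hcc, hc0, hres, hstr, hlamp, y, hy⟩ :=
    hMOD G K S p hG hfg hp hp2 hS hK
  have hst : ∀ d, ∀ l ∈ AddSubgroup.closure (Set.range fun d => ρ d w),
      ρ d l ∈ AddSubgroup.closure (Set.range fun d => ρ d w) := by
    intro d l hl
    induction hl using AddSubgroup.closure_induction with
    | mem x hx =>
      obtain ⟨e, rfl⟩ := hx
      refine AddSubgroup.subset_closure ⟨d * e, ?_⟩
      show ρ (d * e) w = ρ d (ρ e w)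
      rw [map_mul]; rfl
    | zero => rw [map_zero]; exact AddSubgroup.zero_mem _
    | add x y _ _ hx hy => rw [map_add]; exact AddSubgroup.add_mem _ hx hy
    | neg x _ hx => rw [map_neg]; exact AddSubgroup.neg_mem _ hx
  set M : AddSubgroup L := AddSubgroup.closure (Set.range fun d => ρ d w) with hM
  have hw : w ∈ M := AddSubgroup.subset_closure ⟨1, by simp⟩
  have hdw : ∀ d, ρ d w ∈ M := fun d => AddSubgroup.subset_closure ⟨d, rfl⟩
  have hcM : c ∈ M := by
    have : c = ρ y w - w := by rw [hy]; abel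
    rw [this]; exact M.sub_mem (hdw y) hw
  refine ⟨D, M, inferInstance, inferInstance, res ρ M hst, ⟨w, hw⟩, ⟨c, hcM⟩, i, hRF, hFG,
    ?_, ?_, ?_, ?_, ?_, ?_, ?_⟩
  · intro d
    exact Subtype.ext (hc d)
  · exact Subtype.ext hcc
  · intro h
    exact hc0 (congrArg Subtype.val h)
  · intro l hl hlc
    obtain ⟨E, _, hE, τ, f, hf, hfc, hfl⟩ := hres (l : L)
      (fun h => hl (Subtype.ext h)) (fun h => hlc (Subtype.ext h))
    exact ⟨E, inferInstance, hE, τ, f.comp M.subtype, fun d l => hf d l, hfc, hfl⟩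
  · intro k hk
    obtain ⟨a, g, m', h1, h2, h3, h4⟩ := hstr k hk
    have hm' : m' ∈ M := by
      rw [← h1]
      exact hst a _ (M.sub_mem (hdw _) hw)
    exact ⟨a, g, ⟨m', hm'⟩, Subtype.ext h1, Subtype.ext h2, Subtype.ext h3, Subtype.ext h4⟩
  · intro g hg
    obtain ⟨y, hy⟩ := hlamp g hg
    exact ⟨y, Subtype.ext hy⟩
  · rw [eq_top_iff]
    rintro ⟨l, hl⟩ -
    have key : ∀ l (hl : l ∈ M), (⟨l, hl⟩ : M) ∈
        AddSubgroup.closure (Set.range fun d => res ρ M hst d ⟨w, hw⟩) := by
      intro l hl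
      induction hl using AddSubgroup.closure_induction with
      | mem x hx =>
        obtain ⟨e, rfl⟩ := hx
        exact AddSubgroup.subset_closure ⟨e, rfl⟩
      | zero => exact AddSubgroup.zero_mem _
      | add x y hx' hy' hx hy => exact AddSubgroup.add_mem _ hx hy
      | neg x hx' hx => exact AddSubgroup.neg_mem _ hx
    exact key l hl

end Pool.Agent.N129.CE
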